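import Mathlib
import Pool.Agent.W4.CF.Stms

/-!
# Project CF: the choice between the two methods
-/

set_option autoImplicit false

namespace Pool.Agent.W540.CF

open Pool.Agent.W4.CF Finset

/-- the divisor of `f` built from the primes dividing `m` and those of exponent at least `k` -/
def qk (m f k : ℕ) : ℕ :=
  ∏ p ∈ f.primeFactors.filter (fun p => p ∣ m ∨ k ≤ f.factorization p), p ^ f.factorization p

/-- the product of the primes not dividing `m` of exponent at most `k` -/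
def Pk (m f k : ℕ) : ℕ :=
  ∏ p ∈ f.primeFactors.filter (fun p => ¬ p ∣ m ∧ f.factorization p ≤ k), p

/-- the product of the primes not dividing `m` of exponent at least `k` -/
def Qk (m f k : ℕ) : ℕ :=
  ∏ p ∈ f.primeFactors.filter (fun p => ¬ p ∣ m ∧ k ≤ f.factorization p), p

/-- the part of `f` at the primes not dividing `m` of exponent at most `k` -/
def Dk (m f k : ℕ) : ℕ :=
  ∏ p ∈ f.primeFactors.filter (fun p => ¬ p ∣ m ∧ f.factorization p ≤ k), p ^ f.factorization p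

lemma prod_eq (f : ℕ) (hf : f ≠ 0) : ∏ p ∈ f.primeFactors, p ^ f.factorization p = f := by
  have := Nat.prod_factorization_pow_eq_self hf
  rw [Finsupp.prod, Nat.support_factorization] at this
  exact this

lemma one_le_prod (s : Finset ℕ) (g : ℕ → ℕ) (h : ∀ p ∈ s, 1 ≤ g p) : 1 ≤ ∏ p ∈ s, g p :=
  Nat.one_le_iff_ne_zero.mpr (Finset.prod_ne_zero_iff.mpr fun p hp => by
    have := h p hp
    omega)

lemma pos_of_mem {f p : ℕ} (h : p ∈ f.primeFactors) : 1 ≤ p := (Nat.prime_of_mem_primeFactors h).one_le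

lemma fac_pos {f p : ℕ} (h : p ∈ f.primeFactors) : 1 ≤ f.factorization p := by
  have h1 := Nat.prime_of_mem_primeFactors h
  have h2 := Nat.dvd_of_mem_primeFactors h
  have h3 : f ≠ 0 := by
    intro h0
    rw [h0] at h
    simp at h
  exact (h1.dvd_iff_one_le_factorization h3).mp h2

lemma one_le_qk (m f k : ℕ) : 1 ≤ qk m f k :=
  one_le_prod _ _ fun p hp => Nat.one_le_pow _ _ (pos_of_mem (Finset.mem_filter.mp hp).1)

lemma one_le_Pk (m f k : ℕ) : 1 ≤ Pk m f k :=
  one_le_prod _ _ fun p hp => (pos_of_mem (Finset.mem_filter.mp hp).1)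

lemma one_le_Qk (m f k : ℕ) : 1 ≤ Qk m f k :=
  one_le_prod _ _ fun p hp => (pos_of_mem (Finset.mem_filter.mp hp).1)

lemma one_le_fk (m f k : ℕ) : 1 ≤ fk m f k :=
  one_le_prod _ _ fun p hp => (pos_of_mem (Finset.mem_filter.mp hp).1)

lemma qk_dvd (m f k : ℕ) (hf : f ≠ 0) : qk m f k ∣ f := by
  have h : qk m f k ∣ ∏ p ∈ f.primeFactors, p ^ f.factorization p :=
    Finset.prod_dvd_prod_of_subset _ _ _ (Finset.filter_subset _ _)
  rwa [prod_eq f hf] at h

lemma qk_one (m f : ℕ) (hf : f ≠ 0) : qk m f 1 = f := by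
  have h : f.primeFactors.filter (fun p => p ∣ m ∨ 1 ≤ f.factorization p) = f.primeFactors :=
    Finset.filter_true_of_mem fun p hp => Or.inr (fac_pos hp)
  rw [qk, h, prod_eq f hf]

lemma f_eq (m f k : ℕ) (hf : f ≠ 0) : f = qk m f (k + 1) * Dk m f k := by
  have h := Finset.prod_filter_mul_prod_filter_not f.primeFactors
    (fun p => p ∣ m ∨ k + 1 ≤ f.factorization p) (fun p => p ^ f.factorization p)
  rw [prod_eq f hf] at h
  have h2 : f.primeFactors.filter (fun p => ¬ (p ∣ m ∨ k + 1 ≤ f.factorization p)) =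
      f.primeFactors.filter (fun p => ¬ p ∣ m ∧ f.factorization p ≤ k) := by
    refine Finset.filter_congr fun p _ => ?_
    constructor
    · intro h
      push Not at h
      exact ⟨h.1, by omega⟩
    · rintro ⟨h1, h2⟩ h3
      rcases h3 with h3 | h3
      · exact h1 h3
      · omega
  rw [h2] at h
  exact h.symm

lemma primeFactors_prod_pow (s : Finset ℕ) (g : ℕ → ℕ) (hs : ∀ p ∈ s, p.Prime)
    (hg : ∀ p ∈ s, 1 ≤ g p) : (∏ p ∈ s, p ^ g p).primeFactors = s := by
  ext p
  have h0 : ∏ p ∈ s, p ^ g p ≠ 0 := Finset.prod_ne_zero_iff.mpr fun p hp =>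
    pow_ne_zero _ (hs p hp).ne_zero
  rw [Nat.mem_primeFactors]
  constructor
  · rintro ⟨hp, hd, -⟩
    obtain ⟨x, hx, hpx⟩ := (hp.prime.dvd_finsetProd_iff _).mp hd
    have h1 := hp.dvd_of_dvd_pow hpx
    rw [(Nat.prime_dvd_prime_iff_eq hp (hs x hx)).mp h1]
    exact hx
  · intro hp
    refine ⟨hs p hp, ?_, h0⟩
    exact (dvd_pow_self p (by have := hg p hp; omega)).trans (Finset.dvd_prod_of_mem _ hp)

lemma radp_qk (m f k : ℕ) : radp m (qk m f k) = Qk m f k := by
  have h1 : (qk m f k).primeFactors =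
      f.primeFactors.filter (fun p => p ∣ m ∨ k ≤ f.factorization p) :=
    primeFactors_prod_pow _ _ (fun p hp => Nat.prime_of_mem_primeFactors (Finset.mem_filter.mp hp).1)
      (fun p hp => fac_pos (Finset.mem_filter.mp hp).1)
  rw [radp, h1, Qk, Finset.filter_filter]
  congr 1
  refine Finset.filter_congr fun p _ => ?_
  constructor
  · rintro ⟨h1 | h1, h2⟩
    · exact absurd h1 h2
    · exact ⟨h2, h1⟩
  · rintro ⟨h1, h2⟩
    exact ⟨Or.inr h2, h1⟩

lemma radp_eq (m f k : ℕ) : radp m f = Pk m f k * Qk m f (k + 1) := by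
  have h := Finset.prod_filter_mul_prod_filter_not (f.primeFactors.filter (fun p => ¬ p ∣ m))
    (fun p => f.factorization p ≤ k) (fun p => p)
  rw [Finset.filter_filter, Finset.filter_filter] at h
  rw [radp, ← h, Pk, Qk]
  congr 1
  congr 1
  refine Finset.filter_congr fun p _ => ?_
  constructor
  · rintro ⟨h1, h2⟩
    exact ⟨h1, by omega⟩
  · rintro ⟨h1, h2⟩
    exact ⟨h1, by omega⟩

lemma Pk_succ (m f k : ℕ) : Pk m f (k + 1) = Pk m f k * fk m f (k + 1) := by
  have h := Finset.prod_filter_mul_prod_filter_not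
    (f.primeFactors.filter (fun p => ¬ p ∣ m ∧ f.factorization p ≤ k + 1))
    (fun p => f.factorization p ≤ k) (fun p => p)
  rw [Finset.filter_filter, Finset.filter_filter] at h
  rw [Pk, ← h, Pk, fk]
  congr 1
  · congr 1
    refine Finset.filter_congr fun p _ => ?_
    constructor
    · rintro ⟨⟨h1, h2⟩, h3⟩
      exact ⟨h1, h3⟩
    · rintro ⟨h1, h2⟩
      exact ⟨⟨h1, by omega⟩, h2⟩
  · congr 1
    refine Finset.filter_congr fun p _ => ?_
    constructor
    · rintro ⟨⟨h1, h2⟩, h3⟩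
      exact ⟨h1, by omega⟩
    · rintro ⟨h1, h2⟩
      exact ⟨⟨h1, by omega⟩, by omega⟩

lemma Qk_eq (m f k : ℕ) : Qk m f k = fk m f k * Qk m f (k + 1) := by
  have h := Finset.prod_filter_mul_prod_filter_not
    (f.primeFactors.filter (fun p => ¬ p ∣ m ∧ k ≤ f.factorization p))
    (fun p => f.factorization p = k) (fun p => p)
  rw [Finset.filter_filter, Finset.filter_filter] at h
  rw [Qk, ← h, Qk, fk]
  congr 1
  · congr 1
    refine Finset.filter_congr fun p _ => ?_
    constructor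
    · rintro ⟨⟨h1, h2⟩, h3⟩
      exact ⟨h1, h3⟩
    · rintro ⟨h1, h2⟩
      exact ⟨⟨h1, by omega⟩, h2⟩
  · congr 1
    refine Finset.filter_congr fun p _ => ?_
    constructor
    · rintro ⟨⟨h1, h2⟩, h3⟩
      exact ⟨h1, by omega⟩
    · rintro ⟨h1, h2⟩
      exact ⟨⟨h1, by omega⟩, by omega⟩

lemma Dk_le (m f k : ℕ) : Dk m f k ≤ Pk m f k ^ k := by
  rw [Dk, Pk, ← Finset.prod_pow]
  refine Finset.prod_le_prod' fun p hp => ?_
  have h := Finset.mem_filter.mp hp
  exact Nat.pow_le_pow_right (pos_of_mem h.1) h.2.2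

lemma Qk_pow_le (m f k : ℕ) : Qk m f k ^ k ≤ qk m f k := by
  refine Nat.le_of_dvd (one_le_qk m f k) ?_
  rw [Qk, qk, ← Finset.prod_pow]
  refine (Finset.prod_dvd_prod_of_dvd _ (fun p => p ^ f.factorization p) fun p hp => ?_).trans
    (Finset.prod_dvd_prod_of_subset _ _ _ ?_)
  · have h := Finset.mem_filter.mp hp
    exact pow_dvd_pow _ h.2.2
  · intro p hp
    have h := Finset.mem_filter.mp hp
    exact Finset.mem_filter.mpr ⟨h.1, Or.inr h.2.2⟩

lemma fk_pow_le (m f k : ℕ) (hf : f ≠ 0) : fk m f k ^ k ≤ f := by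
  have h0 : fk m f k ^ k ∣ f := by
    conv_rhs => rw [← prod_eq f hf]
    rw [fk, ← Finset.prod_pow]
    refine (Finset.prod_dvd_prod_of_dvd _ (fun p => p ^ f.factorization p) fun p hp => ?_).trans
      (Finset.prod_dvd_prod_of_subset _ _ _ (Finset.filter_subset _ _))
    have h := Finset.mem_filter.mp hp
    exact pow_dvd_pow _ h.2.2.ge
  exact Nat.le_of_dvd (Nat.pos_of_ne_zero hf) h0

lemma Qk_big (m f : ℕ) (hf : f ≠ 0) : Qk m f (f + 1) = 1 := by
  rw [Qk]
  have h : f.primeFactors.filter (fun p => ¬ p ∣ m ∧ f + 1 ≤ f.factorization p) = ∅ := by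
    refine Finset.filter_false_of_mem fun p _ => ?_
    rintro ⟨-, h⟩
    have := Nat.factorization_lt (n := f) p hf
    omega
  rw [h, Finset.prod_empty]

lemma Bd_eq (Y R : ℝ) (hY : 1 ≤ Y) (hR : 1 ≤ R) : Bd Y R =
    Real.exp (min (11 / 12 * Real.log R) (max (Real.log R - Real.log Y / 8)
      (3 / 4 * Real.log R + Real.log Y / 8))) := by
  have hY0 : 0 < Y := by linarith
  have hR0 : 0 < R := by linarith
  rw [Real.exp_monotone.map_min, Real.exp_monotone.map_max, Bd, Real.rpow_def_of_pos hR0,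
    Real.rpow_def_of_pos hR0, Real.rpow_def_of_pos hY0, Real.rpow_def_of_pos hY0, ← Real.exp_add]
  have e1 : Real.log R * (11 / 12) = 11 / 12 * Real.log R := by ring
  have e2 : R * Real.exp (Real.log Y * -(1 / 8)) = Real.exp (Real.log R - Real.log Y / 8) := by
    rw [show Real.log R - Real.log Y / 8 = Real.log R + Real.log Y * -(1 / 8) by ring,
      Real.exp_add, Real.exp_log hR0]
  have e3 : Real.log R * (3 / 4) + Real.log Y * (1 / 8) =
      3 / 4 * Real.log R + Real.log Y / 8 := by ring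
  rw [e1, e2, e3]

lemma claimX (y p q r ρ L : ℝ) (k : ℕ) (hk2 : 2 ≤ k) (hq0 : 0 ≤ q) (hp0 : 0 ≤ p)
    (hL0 : 0 ≤ L) (hrpq : r = p + q) (hrρ : r ≤ ρ)
    (hi : y ≤ k * p) (hii : ((k : ℝ) + 1) * q ≤ L + 2 * y) :
    r - p / 4 ≤ L + min (11 / 12 * ρ) (max (ρ - y / 8) (3 / 4 * ρ + y / 8)) := by
  have hkR : (2 : ℝ) ≤ k := by exact_mod_cast hk2
  have hr0 : 0 ≤ r := by rw [hrpq]; linarith
  have ha : r / 3 - L ≤ p := by
    rcases le_or_gt ((k : ℝ) * r / 3) y with h | h
    · have h1 : (k : ℝ) * (r / 3) ≤ k * p := by linarith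
      have h2 := le_of_mul_le_mul_left h1 (by linarith)
      linarith
    · have h3 : 0 ≤ (k : ℝ) * L := by positivity
      have h1 : ((k : ℝ) + 1) * q ≤ (k + 1) * (L + 2 * r / 3) := by
        linarith
      have h2 := le_of_mul_le_mul_left h1 (by linarith)
      linarith
  have h1 : r - p / 4 ≤ L + 11 / 12 * ρ := by linarith
  have h2 : r - p / 4 ≤ L + max (ρ - y / 8) (3 / 4 * ρ + y / 8) := by
    rcases Nat.lt_or_ge k 3 with hk | hk
    · have hk' : k = 2 := by omega
      have h3 : y ≤ 2 * p := by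
        rw [hk'] at hi
        exact_mod_cast hi
      have h4 := le_max_left (ρ - y / 8) (3 / 4 * ρ + y / 8)
      linarith
    · have hk' : (3 : ℝ) ≤ k := by exact_mod_cast hk
      have h5 : 3 * q ≤ k * q := mul_le_mul_of_nonneg_right hk' hq0
      have h3 : 4 * q ≤ L + 2 * y := by linarith
      have h4 := le_max_right (ρ - y / 8) (3 / 4 * ρ + y / 8)
      linarith
  rcases min_choice (11 / 12 * ρ) (max (ρ - y / 8) (3 / 4 * ρ + y / 8)) with h | h
  · rw [h]; exact h1
  · rw [h]; exact h2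

lemma claimL (y q g L b ε : ℝ) (k : ℕ) (hk2 : 2 ≤ k) (hq0 : 0 ≤ q) (hy0 : 0 ≤ y)
    (hL0 : 0 ≤ L) (hb0 : 0 ≤ b) (h5 : 5 ≤ ε * k)
    (hii : ((k : ℝ) + 1) * q ≤ L + 2 * y) (hiii : (k : ℝ) * g ≤ L + 3 * y) :
    g + q ≤ 2 * L + ε * y + b := by
  have hkR : (2 : ℝ) ≤ k := by exact_mod_cast hk2
  have h2 : (k : ℝ) * (g + q) ≤ k * (2 * L + ε * y + b) := by
    have h3 : 5 * y ≤ ε * k * y := mul_le_mul_of_nonneg_right h5 hy0
    have h4 : 0 ≤ (k : ℝ) * b := by positivity
    have h6 : 2 * L ≤ k * L := mul_le_mul_of_nonneg_right hkR hL0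
    linarith
  exact le_of_mul_le_mul_left h2 (by linarith)

/-- **SEL.** -/
theorem t_SEL : S_SEL := by
  intro c0 c1 ε hc0 hc1 hε
  set c0' : ℝ := max 1 c0 with hc0'
  set c2 : ℝ := max 1 c1 with hc2
  have h1c0' : 1 ≤ c0' := le_max_left _ _
  have h1c2 : 1 ≤ c2 := le_max_left _ _
  obtain ⟨k0, hk0⟩ := exists_nat_ge (5 / ε)
  refine ⟨c2, c0' ^ 2, k0, by linarith, by positivity, ?_⟩
  intro m f Y R hm hf hY hR hfY hrR hRY
  have hf0 : f ≠ 0 := by omega
  have hY0 : 0 < Y := by linarith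
  have hR0 : 0 < R := by linarith
  set y := Real.log Y with hy
  set ρ := Real.log R with hρ
  set L := Real.log c0' with hL
  have hy0 : 0 ≤ y := Real.log_nonneg hY
  have hρ0 : 0 ≤ ρ := Real.log_nonneg hR
  have hL0 : 0 ≤ L := Real.log_nonneg h1c0'
  set b := min (11 / 12 * ρ) (max (ρ - y / 8) (3 / 4 * ρ + y / 8)) with hb
  have hb0 : 0 ≤ b := by
    refine le_min (by positivity) (le_max_of_le_right (by positivity))
  have hBd : Bd Y R = Real.exp b := Bd_eq Y R hY hR
  have hRHS : c0' ^ 2 * Y ^ ε * Bd Y R = Real.exp (2 * L + ε * y + b) := by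
    rw [hBd, Real.exp_add, Real.exp_add, Real.rpow_def_of_pos hY0, ← hy]
    congr 2
    · rw [hL, show 2 * Real.log c0' = ((2 : ℕ) : ℝ) * Real.log c0' by norm_num,
        ← Real.log_pow, Real.exp_log (by positivity)]
    · ring_nf
  rw [hRHS]
  by_cases hall : ∀ k : ℕ, 1 ≤ k → (f : ℝ) ≤ c2 * Y * qk m f k
  · left
    refine ⟨qk m f (f + 1), qk_dvd m f _ hf0, hall _ (by omega), ?_⟩
    rw [radp_qk, Qk_big m f hf0]
    have : (0 : ℝ) ≤ 2 * L + ε * y + b := by positivity
    simpa using Real.one_le_exp this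
  push Not at hall
  have hex : ∃ j : ℕ, ¬ ((f : ℝ) ≤ c2 * Y * qk m f (j + 1)) := by
    obtain ⟨k, hk, hk2⟩ := hall
    refine ⟨k - 1, ?_⟩
    rw [show k - 1 + 1 = k by omega]
    exact not_le.mpr hk2
  classical
  obtain ⟨k, hk1, hk2, hk3⟩ : ∃ k : ℕ, 1 ≤ k ∧ (f : ℝ) ≤ c2 * Y * qk m f k ∧
      c2 * Y * qk m f (k + 1) < f := by
    have h1 := Nat.find_spec hex
    have h2 := fun j hj => Nat.find_min hex (m := j) hj
    set j := Nat.find hex with hj
    have hj0 : j ≠ 0 := by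
      intro h0
      rw [h0] at h1
      apply h1
      rw [show 0 + 1 = 1 by rfl, qk_one m f hf0]
      have : (1 : ℝ) ≤ c2 * Y := one_le_mul_of_one_le_of_one_le h1c2 hY
      have h3 : (0 : ℝ) ≤ f := Nat.cast_nonneg f
      nlinarith
    refine ⟨j, by omega, ?_, not_le.mp h1⟩
    have h3 := h2 (j - 1) (by omega)
    rw [show j - 1 + 1 = j by omega] at h3
    exact not_not.mp h3
  -- the real quantities
  have hc2Y : (1 : ℝ) ≤ c2 * Y := one_le_mul_of_one_le_of_one_le h1c2 hY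
  have hqpos : (1 : ℝ) ≤ (qk m f (k + 1) : ℝ) := by exact_mod_cast one_le_qk m f (k + 1)
  have hfe : (f : ℝ) = qk m f (k + 1) * Dk m f k := by exact_mod_cast f_eq m f k hf0
  have hD : c2 * Y < (Dk m f k : ℝ) := by
    rw [hfe] at hk3
    nlinarith
  have hDP : (Dk m f k : ℝ) ≤ (Pk m f k : ℝ) ^ k := by exact_mod_cast Dk_le m f k
  have hrP : (radp m f : ℝ) = Pk m f k * Qk m f (k + 1) := by exact_mod_cast radp_eq m f k
  have hP1 : (1 : ℝ) ≤ (Pk m f k : ℝ) := by exact_mod_cast one_le_Pk m f k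
  have hQ1 : (1 : ℝ) ≤ (Qk m f (k + 1) : ℝ) := by exact_mod_cast one_le_Qk m f (k + 1)
  have hF1 : (1 : ℝ) ≤ (fk m f k : ℝ) := by exact_mod_cast one_le_fk m f k
  have hk2' : 2 ≤ k := by
    rcases Nat.lt_or_ge k 2 with h | h
    · exfalso
      have hk : k = 1 := by omega
      subst hk
      rw [pow_one] at hDP
      have h1 : (Pk m f 1 : ℝ) ≤ radp m f := by
        rw [hrP]
        nlinarith
      have h2 : R ≤ c2 * Y := hRY.trans (mul_le_mul_of_nonneg_right (le_max_right _ _) hY0.le)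
      linarith
    · exact h
  set p := Real.log (Pk m f k) with hp
  set q := Real.log (Qk m f (k + 1)) with hq
  set g := Real.log (fk m f k) with hg
  set r := Real.log (radp m f) with hr
  have hp0 : 0 ≤ p := Real.log_nonneg hP1
  have hq0 : 0 ≤ q := Real.log_nonneg hQ1
  have hg0 : 0 ≤ g := Real.log_nonneg hF1
  have hrpq : r = p + q := by
    rw [hr, hrP, Real.log_mul (by positivity) (by positivity)]
  have hr1 : (1 : ℝ) ≤ radp m f := by
    rw [hrP]
    exact one_le_mul_of_one_le_of_one_le hP1 hQ1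
  have hrρ : r ≤ ρ := Real.log_le_log (by linarith) hrR
  have hkR : (2 : ℝ) ≤ k := by exact_mod_cast hk2'
  -- (i)
  have hi : y ≤ k * p := by
    have h1 : Y ≤ (Pk m f k : ℝ) ^ k := by
      have : Y ≤ c2 * Y := le_mul_of_one_le_left hY0.le h1c2
      linarith
    have h2 := Real.log_le_log hY0 h1
    rwa [Real.log_pow] at h2
  -- (ii)
  have hfle : (f : ℝ) ≤ c0' * Y ^ 3 := hfY.trans (mul_le_mul_of_nonneg_right (le_max_right _ _)
    (by positivity))
  have hii : ((k : ℝ) + 1) * q ≤ L + 2 * y := by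
    have h1 : (Qk m f (k + 1) : ℝ) ^ (k + 1) ≤ qk m f (k + 1) := by
      exact_mod_cast Qk_pow_le m f (k + 1)
    have h2 : (qk m f (k + 1) : ℝ) * Y ≤ c0' * Y ^ 3 := by
      have h3 : (0 : ℝ) ≤ qk m f (k + 1) * Y := by positivity
      have h4 := mul_le_mul_of_nonneg_right h1c2 h3
      calc (qk m f (k + 1) : ℝ) * Y = 1 * (qk m f (k + 1) * Y) := by ring
        _ ≤ c2 * (qk m f (k + 1) * Y) := h4
        _ = c2 * Y * qk m f (k + 1) := by ring
        _ ≤ f := hk3.le
        _ ≤ c0' * Y ^ 3 := hfle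
    have h3 : (qk m f (k + 1) : ℝ) ≤ c0' * Y ^ 2 := by
      have h4 : (qk m f (k + 1) : ℝ) * Y ≤ (c0' * Y ^ 2) * Y := by
        calc _ ≤ c0' * Y ^ 3 := h2
          _ = _ := by ring
      exact le_of_mul_le_mul_right h4 hY0
    have h5 := Real.log_le_log (by positivity) (h1.trans h3)
    rw [Real.log_pow, Real.log_mul (by positivity) (by positivity), Real.log_pow] at h5
    push_cast at h5
    linarith
  -- (iii)
  have hiii : (k : ℝ) * g ≤ L + 3 * y := by
    have h1 : (fk m f k : ℝ) ^ k ≤ f := by exact_mod_cast fk_pow_le m f k hf0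
    have h5 := Real.log_le_log (by positivity) (h1.trans hfle)
    rw [Real.log_pow, Real.log_mul (by positivity) (by positivity), Real.log_pow] at h5
    push_cast at h5
    linarith
  -- the claim
  have hX : r - p / 4 ≤ L + b :=
    claimX y p q r ρ L k hk2' hq0 hp0 hL0 hrpq hrρ hi hii
  have hrad : Real.log (radp m (qk m f k)) = g + q := by
    rw [radp_qk, Qk_eq]
    push_cast
    rw [Real.log_mul (by positivity) (by positivity)]
  have hradpos : (0 : ℝ) < radp m (qk m f k) := by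
    rw [radp_qk]
    exact_mod_cast one_le_Qk m f k
  have hεy : 0 ≤ ε * y := by positivity
  rcases Nat.lt_or_ge k0 k with hkk | hkk
  · -- large k
    left
    refine ⟨qk m f k, qk_dvd m f k hf0, hk2, ?_⟩
    rw [← Real.exp_log hradpos]
    refine Real.exp_le_exp.mpr ?_
    rw [hrad]
    have hk5 : 5 / ε ≤ k := hk0.trans (by exact_mod_cast hkk.le)
    have h5 : 5 ≤ ε * k := by
      rw [div_le_iff₀ hε] at hk5
      linarith
    exact claimL y q g L b ε k hk2' hq0 hy0 hL0 hb0 h5 hii hiii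
  · -- small k
    obtain ⟨j, rfl⟩ : ∃ j, k = j + 1 := ⟨k - 1, by omega⟩
    rcases le_or_gt g (3 / 4 * p) with hgs | hgs
    · left
      refine ⟨qk m f (j + 1), qk_dvd m f _ hf0, hk2, ?_⟩
      rw [← Real.exp_log hradpos]
      refine Real.exp_le_exp.mpr ?_
      rw [hrad]
      linarith
    · right
      refine ⟨j + 1, hk2', hkk, ?_⟩
      rw [Real.rpow_def_of_pos (by positivity : (0 : ℝ) < fk m f (j + 1)), ← Real.exp_add,
        ← Real.exp_log (by positivity : (0 : ℝ) < radp m f)]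
      refine Real.exp_le_exp.mpr ?_
      rw [← hr, ← hg]
      linarith

end Pool.Agent.W540.CF
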